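import Mathlib

set_option autoImplicit false
open MeasureTheory Set Metric
open scoped RealInnerProductSpace

namespace Pool.Agent.MP_20bec2_an.LB

abbrev E (d : ℕ) := EuclideanSpace ℝ (Fin d)

/-- standard basis vector -/
noncomputable def eb {d : ℕ} (i : Fin d) : E d := EuclideanSpace.single i 1

/-- plateau: 1 on [-ρ,ρ], 0 outside (-ρ-1,ρ+1) -/
noncomputable def bp (ρ x : ℝ) : ℝ :=
  Real.smoothTransition (ρ + 1 - x) * Real.smoothTransition (ρ + 1 + x)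

/-- bump on the unit step: 1 on [3/8,5/8], 0 outside (1/4,3/4) -/
noncomputable def th (s : ℝ) : ℝ := bp 1 (8 * s - 4)

noncomputable def bump (d : ℕ) : ContDiffBump (0 : E d) := ⟨1 / 2, 1, by norm_num, by norm_num⟩

/-- smooth probability kernel supported in the unit ball -/
noncomputable def kr (d : ℕ) : E d → ℝ := (bump d).normed volume

/-- the kernel at scale r -/
noncomputable def ks {d : ℕ} (r : ℝ) (x : E d) : ℝ := (r ^ d)⁻¹ * kr d (r⁻¹ • x)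

/-- two by two minor -/
noncomputable def Jm {d : ℕ} (G : E d →L[ℝ] E d) (a a' v v' : E d) : ℝ :=
  ⟪a, G v⟫ * ⟪a', G v'⟫ - ⟪a, G v'⟫ * ⟪a', G v⟫

/-- local smoothed model of a solution: f maps the source ball, γ is a smoothed inverse -/
structure Sm (d : ℕ) where
  f : E d → E d
  γ : E d → E d
  ρ : E d → ℝ
  x0 : E d
  R : ℝ
  Λ : ℝ
  η0 : ℝ
  R_pos : 0 < R
  one_le : 1 ≤ Λ
  η0_pos : 0 < η0
  γ_smooth : ContDiff ℝ 2 γ
  γ_lip : ∀ y, ‖fderiv ℝ γ y‖ ≤ Λ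
  f_meas : Measurable f
  f_ql : ∀ x ∈ ball x0 R, ∀ x' ∈ ball x0 R, ‖f x - f x'‖ ≤ Λ * (‖x - x'‖ + η0)
  inv : ∀ x ∈ ball x0 R, ‖γ (f x) - x‖ ≤ Λ * η0
  cover : ∀ y, ‖γ y - x0‖ < R / 2 → y ∈ f '' ball x0 R
  ρ_cont : Continuous ρ
  ρ_lb : ∀ x, 1 / 2 ≤ ρ x
  ρ_ub : ∀ x, ρ x ≤ 3 / 2
  meas : MeasurableSet (f '' ball x0 R)
  push : Measure.map f ((volume.restrict (ball x0 R)).withDensity fun x => ENNReal.ofReal (ρ x))
    = volume.restrict (f '' ball x0 R)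

section node
variable {d : ℕ}

/-- average of the field X over the preimage of the ball of radius r about x -/
noncomputable def nd (S : Sm d) (X : E d → ℝ) (x : E d) (r : ℝ) : ℝ :=
  ∫ y, ks r (S.γ y - x) * X y

noncomputable def An (S : Sm d) (x : E d) (r : ℝ) (a v : E d) : ℝ :=
  nd S (fun y => ⟪a, fderiv ℝ S.γ y v⟫) x r

noncomputable def Cn (S : Sm d) (x : E d) (r : ℝ) (a a' v v' : E d) : ℝ :=
  nd S (fun y => Jm (fderiv ℝ S.γ y) a a' v v') x r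

/-- the coarse map at scale η -/
noncomputable def Gm (S : Sm d) (η : ℝ) (y : E d) : E d := ∫ z, ks η z • S.γ (y - z)

/-- source function carried to the target and smoothed at scale η -/
noncomputable def sm (S : Sm d) (η : ℝ) (φ : E d → ℝ) (y : E d) : ℝ :=
  ∫ x in ball S.x0 (3 * S.R / 8), ks η (y - S.f x) * φ x

structure IsBil (A : E d → E d → ℝ) : Prop where
  add1 : ∀ a b v, A (a + b) v = A a v + A b v
  smul1 : ∀ (t : ℝ) a v, A (t • a) v = t * A a v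
  add2 : ∀ a v w, A a (v + w) = A a v + A a w
  smul2 : ∀ (t : ℝ) a v, A a (t • v) = t * A a v

structure IsAlt (C : E d → E d → E d → E d → ℝ) : Prop where
  add1 : ∀ a b a' v v', C (a + b) a' v v' = C a a' v v' + C b a' v v'
  smul1 : ∀ (t : ℝ) a a' v v', C (t • a) a' v v' = t * C a a' v v'
  add3 : ∀ a a' v w v', C a a' (v + w) v' = C a a' v v' + C a a' w v'
  smul3 : ∀ (t : ℝ) a a' v v', C a a' (t • v) v' = t * C a a' v v'
  swap1 : ∀ a a' v v', C a' a v v' = - C a a' v v'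
  swap3 : ∀ a a' v v', C a a' v' v = - C a a' v v'

noncomputable def fr (A : E d → E d → ℝ) : ℝ := ∑ i, ∑ j, A (eb i) (eb j) ^ 2

noncomputable def row (A : E d → E d → ℝ) (ν : E d) : ℝ := ∑ j, A ν (eb j) ^ 2

noncomputable def c3 (C : E d → E d → E d → E d → ℝ) (ν : E d) : ℝ :=
  ∑ i, ∑ j, ∑ k, C (eb i) ν (eb j) (eb k) ^ 2

noncomputable def c2 (C : E d → E d → E d → E d → ℝ) (ν n : E d) : ℝ :=
  ∑ i, ∑ j, C (eb i) ν (eb j) n ^ 2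

noncomputable def psi (Cb : ℝ) (M : ℕ) (s : ℝ) : ℝ :=
  ∑ k ∈ Finset.range (M + 1), Real.sqrt (s + (Cb / 2 ^ k) ^ 2)

/-- first potential -/
noncomputable def F1 (S : Sm d) (Ab Cb : ℝ) (x : E d) (r : ℝ) (ν : E d) : ℝ :=
  1 + c3 (Cn S x r) ν / Cb ^ 2 + row (An S x r) ν / Ab ^ 2

/-- second potential -/
noncomputable def F2 (S : Sm d) (Ab Cb : ℝ) (M : ℕ) (x : E d) (r : ℝ) (ν n : E d) : ℝ :=
  fr (An S x r) / Ab ^ 2 + An S x r ν n ^ 2 / Ab ^ 2 +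
    psi Cb M (c2 (Cn S x r) ν n) / (24 * (M + 1) * Cb)

end node

/-- the chirp pattern: T steps of height a with frequencies 1 + k/T, then a flat zone -/
noncomputable def chirp (ε : ℝ) (T : ℕ) (a u v : ℝ) : ℝ :=
  1 + ε * ∑ k ∈ Finset.range T,
    th (2 * T * Int.fract (v / (2 * T * a)) - k) * Real.cos ((1 + (k : ℝ) / T) * u)

noncomputable def patt (ty : Fin 3) (ε : ℝ) (T : ℕ) (a u v : ℝ) : ℝ :=
  if ty = 0 then 1 else if ty = 1 then 1 + ε * Real.cos u else chirp ε T a u v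

structure Par (D : ℕ) where
  lam : ℝ
  ε : ℝ
  a : ℝ
  r0 : ℝ
  T : ℕ
  N : ℕ
  K : ℕ
  B : Fin K → OrthonormalBasis (Fin (D + 1)) ℝ (E (D + 1))

namespace Par
variable {D : ℕ} (P : Par D)

structure Ok : Prop where
  lam_pos : 0 < P.lam
  lam_le : P.lam ≤ 1 / (100 * (D + 1))
  ε_pos : 0 < P.ε
  ε_le : P.ε ≤ 1 / 2
  one_le_a : 1 ≤ P.a
  r0_pos : 0 < P.r0
  one_le_T : 1 ≤ P.T
  card : (P.K : ℝ) * P.lam ^ (D + 1) ≤ (3 * (D + 1)) ^ (D + 1)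
  net : ∀ ν : E (D + 1), ‖ν‖ = 1 → ∃ k, ‖ν - P.B k 0‖ ≤ P.lam ∨ ‖ν + P.B k 0‖ ≤ P.lam
  sep : ∀ k k', k ≠ k' → P.lam ^ 2 / 2 ≤ 1 - ⟪P.B k 0, P.B k' 0⟫ ^ 2

/-- node scale of level i -/
noncomputable def r (i : ℕ) : ℝ := P.r0 * P.lam ^ ((4 * D + 12) * i)
/-- slab period -/
noncomputable def p (i : ℕ) : ℝ := P.r i * P.lam ^ (2 * D + 6)
/-- relative slab thickness -/
noncomputable def th0 : ℝ := P.lam ^ (D + 2)
/-- pattern wavelength -/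
noncomputable def wl (i : ℕ) : ℝ := P.r i * P.lam ^ (4 * D + 10)
/-- scale of the coarse map -/
noncomputable def η (i : ℕ) : ℝ := P.r i * P.lam ^ (4 * D + 11)

abbrev Fam := Fin P.K × Fin 3 × Fin D

noncomputable def off (φ : P.Fam) : ℝ := (3 * (φ.2.2 : ℕ) + (φ.2.1 : ℕ) + 1) / (3 * D + 1)

/-- slab normal and pattern direction -/
noncomputable def nu (φ : P.Fam) : E (D + 1) := P.B φ.1 0
noncomputable def mu (φ : P.Fam) : E (D + 1) := P.B φ.1 φ.2.2.succ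

/-- periodic slab profile -/
noncomputable def prof (ρ : ℝ) (φ : P.Fam) (s : ℝ) : ℝ := bp ρ ((Int.fract s - P.off φ) / P.th0)

noncomputable def sl (ρ : ℝ) (i : ℕ) (φ : P.Fam) (x : E (D + 1)) : ℝ :=
  P.prof ρ φ (⟪P.nu φ, x⟫ / P.p i)

noncomputable def pat (i : ℕ) (φ : P.Fam) (x : E (D + 1)) : ℝ :=
  patt φ.2.1 P.ε P.T P.a (⟪P.mu φ, x⟫ / P.wl i) (⟪P.nu φ, x⟫ / P.wl i)

noncomputable def tot (i : ℕ) (x : E (D + 1)) : ℝ := ∑ φ : P.Fam, P.sl 2 i φ x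

noncomputable def dl : ℕ → E (D + 1) → ℝ
  | 0 => fun _ => 0
  | i + 1 => fun x => (max (1 - P.tot i x) 0 * dl i x +
      ∑ φ : P.Fam, P.sl 2 i φ x * (P.pat i φ x - 1)) / max 1 (P.tot i x)

/-- the density of one piece -/
noncomputable def rho (x : E (D + 1)) : ℝ := 1 + P.dl P.N x

/-- weight of the children of the node x in the family φ -/
noncomputable def wt (i : ℕ) (φ : P.Fam) (x x' : E (D + 1)) : ℝ :=
  ks (P.r i) (x' - x) * P.sl 2 i φ x' / (P.th0 * ∫ s, bp 2 s)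

end Par

/-- the model S carries the density of P, and Ω dominates the polynomial parameters -/
structure Link {D : ℕ} (S : Sm (D + 1)) (P : Par D) (Ω : ℝ) : Prop where
  ok : P.Ok
  r0_eq : P.r0 = S.R / 64
  ρ_eq : ∀ x ∈ ball S.x0 (S.R / 2), S.ρ x = P.rho x
  fine : S.Λ * S.η0 ≤ P.r P.N * P.lam
  Λ_le : S.Λ ≤ Ω
  T_le : (P.T : ℝ) ≤ Ω
  a_le : P.a ≤ Ω
  N_le : (P.N : ℝ) ≤ Ω

/-- admissible node centres of level i -/
def nodes {D : ℕ} (S : Sm (D + 1)) (P : Par D) (i : ℕ) : Set (E (D + 1)) :=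
  ball S.x0 (S.R / 4 - 2 * P.r i)

section plane

noncomputable def D1 (F : ℝ × ℝ → ℝ) (p : ℝ × ℝ) : ℝ := fderiv ℝ F p (1, 0)
noncomputable def D2 (F : ℝ × ℝ → ℝ) (p : ℝ × ℝ) : ℝ := fderiv ℝ F p (0, 1)
noncomputable def Jac (u V : ℝ × ℝ → ℝ) (p : ℝ × ℝ) : ℝ := D1 u p * D2 V p - D2 u p * D1 V p
def rect (R W : ℝ) : Set (ℝ × ℝ) := Icc (-R) R ×ˢ Icc (-W) W
noncomputable def II (s0 s1 W : ℝ) (F : ℝ × ℝ → ℝ) : ℝ :=
  ∫ t in s0..s1, ∫ w in (-W)..W, F (t, w)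

/-- the Jacobian of (u,V) is weakly close to G on the rectangle -/
def WeakJ (u V G EC : ℝ × ℝ → ℝ) (R W τ : ℝ) : Prop :=
  ∀ Ξ : ℝ × ℝ → ℝ, ContDiff ℝ 1 Ξ → ∀ L : ℝ,
    (∀ p ∈ rect R W, |Ξ p| ≤ L ∧ |D1 Ξ p| ≤ L ∧ |D2 Ξ p| ≤ L) →
    ∀ s0 s1 : ℝ, -R ≤ s0 → s0 ≤ s1 → s1 ≤ R →
      |II s0 s1 W fun p => Ξ p * (Jac u V p - G p)| ≤ (II s0 s1 W fun p => |Ξ p| * EC p) + τ * L

/-- restriction of a function on the box to a coordinate slice -/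
noncomputable def slc {D : ℕ} (F : (Fin D → ℝ) × ℝ → ℝ) (t : Fin D → ℝ) (l : Fin D)
    (p : ℝ × ℝ) : ℝ := F (t + p.1 • Pi.single l 1, p.2)

def box (D : ℕ) (R W : ℝ) : Set ((Fin D → ℝ) × ℝ) :=
  (Set.pi univ fun _ => Icc (-R) (3 * R)) ×ˢ Icc (-W) W

end plane

/-- the unit cube -/
def cube (d : ℕ) : Set (E d) := {x | ∀ i, x i ∈ Icc (0 : ℝ) 1}

/-- the pushforward equation has a bi-ω solution -/
def Realisable (d : ℕ) (ω : ℝ → ℝ) (ρ : E d → ℝ) : Prop :=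
  ∃ f : E d → E d, InjOn f (cube d) ∧
    (∃ C t₀ : ℝ, 0 < C ∧ 0 < t₀ ∧ ∀ x ∈ cube d, ∀ y ∈ cube d,
      ‖x - y‖ ≤ t₀ → ‖f x - f y‖ ≤ C * ω ‖x - y‖) ∧
    (∃ C t₀ : ℝ, 0 < C ∧ 0 < t₀ ∧ ∀ x ∈ cube d, ∀ y ∈ cube d,
      ‖f x - f y‖ ≤ t₀ → ‖x - y‖ ≤ C * ω ‖f x - f y‖) ∧
    ∀ B, MeasurableSet B →
      ∫⁻ x in cube d ∩ f ⁻¹' B, ENNReal.ofReal (ρ x) = volume (B ∩ f '' cube d)

end Pool.Agent.MP_20bec2_an.LB
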