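import Pool.Agent.MP_20bec2_an.lb.Spec

set_option autoImplicit false
open MeasureTheory Set Metric Filter Topology
open scoped RealInnerProductSpace

namespace Pool.Agent.MP_20bec2_an.LB

section bp

theorem bp_nonneg (ρ x : ℝ) : 0 ≤ bp ρ x :=
  mul_nonneg (Real.smoothTransition.nonneg _) (Real.smoothTransition.nonneg _)

theorem bp_le_one (ρ x : ℝ) : bp ρ x ≤ 1 :=
  mul_le_one₀ (Real.smoothTransition.le_one _) (Real.smoothTransition.nonneg _)
    (Real.smoothTransition.le_one _)

theorem bp_eq_one {ρ x : ℝ} (h : |x| ≤ ρ) : bp ρ x = 1 := by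
  have := abs_le.1 h
  unfold bp
  rw [Real.smoothTransition.one_of_one_le (by linarith),
    Real.smoothTransition.one_of_one_le (by linarith), one_mul]

theorem bp_eq_zero {ρ x : ℝ} (h : ρ + 1 ≤ |x|) : bp ρ x = 0 := by
  unfold bp
  rcases le_abs.1 h with h | h
  · rw [Real.smoothTransition.zero_of_nonpos (by linarith), zero_mul]
  · rw [Real.smoothTransition.zero_of_nonpos (x := ρ + 1 + x) (by linarith), mul_zero]

theorem abs_lt_of_bp_ne {ρ x : ℝ} (h : bp ρ x ≠ 0) : |x| < ρ + 1 := by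
  by_contra hc
  exact h (bp_eq_zero (not_lt.1 hc))

theorem contDiff_bp (ρ : ℝ) (n : ℕ) : ContDiff ℝ n (bp ρ) := by
  unfold bp
  exact (Real.smoothTransition.contDiff.comp (contDiff_const.sub contDiff_id)).mul
    (Real.smoothTransition.contDiff.comp (contDiff_const.add contDiff_id))

theorem continuous_bp (ρ : ℝ) : Continuous (bp ρ) := (contDiff_bp ρ 0).continuous

theorem exists_st : ∃ K : ℝ, 1 ≤ K ∧ ∀ x, |deriv Real.smoothTransition x| ≤ K := by
  have hc : Continuous (deriv Real.smoothTransition) :=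
    (Real.smoothTransition.contDiff (n := 1)).continuous_deriv le_rfl
  have hs : HasCompactSupport (deriv Real.smoothTransition) := by
    refine HasCompactSupport.intro (isCompact_Icc (a := 0) (b := 1)) fun x hx => ?_
    rw [mem_Icc, not_and_or, not_le, not_le] at hx
    rcases hx with hx | hx
    · have : Real.smoothTransition =ᶠ[𝓝 x] fun _ => 0 := by
        filter_upwards [Iio_mem_nhds hx] with y hy
        exact Real.smoothTransition.zero_of_nonpos (le_of_lt hy)
      rw [this.deriv_eq, deriv_const]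
    · have : Real.smoothTransition =ᶠ[𝓝 x] fun _ => 1 := by
        filter_upwards [Ioi_mem_nhds hx] with y hy
        exact Real.smoothTransition.one_of_one_le (le_of_lt hy)
      rw [this.deriv_eq, deriv_const]
  obtain ⟨C, hC⟩ := hc.bounded_above_of_compact_support hs
  exact ⟨max 1 C, le_max_left _ _, fun x => (hC x).trans (le_max_right _ _)⟩

theorem exists_Kb : ∃ K : ℝ, 1 ≤ K ∧ ∀ ρ x, |deriv (bp ρ) x| ≤ K := by
  obtain ⟨K, h1, hK⟩ := exists_st
  refine ⟨2 * K, by linarith, fun ρ x => ?_⟩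
  have hd : ∀ y, HasDerivAt Real.smoothTransition (deriv Real.smoothTransition y) y := fun y =>
    (((Real.smoothTransition.contDiff (n := 1)).differentiable (by simp)) y).hasDerivAt
  have h1 : HasDerivAt (fun x => Real.smoothTransition (ρ + 1 - x))
      (deriv Real.smoothTransition (ρ + 1 - x) * (0 - 1)) x :=
    (hd _).comp x ((hasDerivAt_const x (ρ + 1)).sub (hasDerivAt_id x))
  have h2 : HasDerivAt (fun x => Real.smoothTransition (ρ + 1 + x))
      (deriv Real.smoothTransition (ρ + 1 + x) * (0 + 1)) x :=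
    (hd _).comp x ((hasDerivAt_const x (ρ + 1)).add (hasDerivAt_id x))
  have h3 : deriv (bp ρ) x = _ := (h1.mul h2).deriv
  rw [h3]
  have a1 := hK (ρ + 1 - x)
  have a2 := hK (ρ + 1 + x)
  have b1 := Real.smoothTransition.nonneg (ρ + 1 - x)
  have b2 := Real.smoothTransition.nonneg (ρ + 1 + x)
  have c1 := Real.smoothTransition.le_one (ρ + 1 - x)
  have c2 := Real.smoothTransition.le_one (ρ + 1 + x)
  rw [abs_le] at a1 a2 ⊢
  constructor <;> nlinarith [a1.1, a1.2, a2.1, a2.2]

/-- bound for the derivative of every plateau -/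
noncomputable def Kb : ℝ := exists_Kb.choose

theorem one_le_Kb : 1 ≤ Kb := exists_Kb.choose_spec.1

theorem abs_deriv_bp (ρ x : ℝ) : |deriv (bp ρ) x| ≤ Kb := exists_Kb.choose_spec.2 ρ x

theorem hasDerivAt_bp (ρ x : ℝ) : HasDerivAt (bp ρ) (deriv (bp ρ) x) x :=
  (((contDiff_bp ρ 1).differentiable (by simp)) x).hasDerivAt

theorem lip_bp (ρ x y : ℝ) : |bp ρ x - bp ρ y| ≤ Kb * |x - y| := by
  have := convex_univ.norm_image_sub_le_of_norm_deriv_le (f := bp ρ) (C := Kb)
    (fun z _ => (hasDerivAt_bp ρ z).differentiableAt) (fun z _ => abs_deriv_bp ρ z)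
    (mem_univ y) (mem_univ x)
  simpa [Real.norm_eq_abs] using this

theorem hcs_bp (ρ : ℝ) : HasCompactSupport (bp ρ) := by
  refine HasCompactSupport.intro (isCompact_Icc (a := -(ρ + 1)) (b := ρ + 1)) fun x hx => ?_
  refine bp_eq_zero ?_
  by_contra hc
  exact hx (abs_le.1 (not_le.1 hc).le)

theorem integrable_bp (ρ : ℝ) : Integrable (bp ρ) :=
  (continuous_bp ρ).integrable_of_hasCompactSupport (hcs_bp ρ)

theorem integral_bp_ge {ρ : ℝ} (h : 0 ≤ ρ) : 2 * ρ ≤ ∫ x, bp ρ x := by
  have : ∫ x, (Icc (-ρ) ρ).indicator (fun _ => (1 : ℝ)) x ≤ ∫ x, bp ρ x := by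
    refine integral_mono ((integrable_indicator_iff measurableSet_Icc).2 ?_) (integrable_bp ρ) ?_
    · exact integrableOn_const (by simp)
    · intro x
      by_cases hx : x ∈ Icc (-ρ) ρ
      · simp [indicator_of_mem hx, bp_eq_one (abs_le.2 hx)]
      · simp [indicator_of_notMem hx, bp_nonneg]
  rw [integral_indicator measurableSet_Icc] at this
  simp [Measure.real, Real.volume_Icc, ENNReal.toReal_ofReal (show 0 ≤ ρ + ρ by linarith)] at this
  linarith

theorem integral_bp_le {ρ : ℝ} (h : 0 ≤ ρ) : ∫ x, bp ρ x ≤ 2 * ρ + 2 := by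
  have : ∫ x, bp ρ x ≤ ∫ x, (Icc (-(ρ + 1)) (ρ + 1)).indicator (fun _ => (1 : ℝ)) x := by
    refine integral_mono (integrable_bp ρ) ((integrable_indicator_iff measurableSet_Icc).2 ?_) ?_
    · exact integrableOn_const (by simp)
    · intro x
      by_cases hx : x ∈ Icc (-(ρ + 1)) (ρ + 1)
      · simp only [indicator_of_mem hx]; exact bp_le_one _ _
      · have : bp ρ x = 0 := by
          refine bp_eq_zero ?_
          by_contra hc
          exact hx (abs_le.1 (not_le.1 hc).le)
        simp only [indicator_of_notMem hx, this, le_refl]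
  rw [integral_indicator measurableSet_Icc] at this
  simp only [integral_const, Measure.real, MeasurableSet.univ, Measure.restrict_apply,
    univ_inter, Real.volume_Icc, smul_eq_mul, mul_one] at this
  rw [ENNReal.toReal_ofReal (by linarith)] at this
  linarith

theorem th_nonneg (s : ℝ) : 0 ≤ th s := bp_nonneg _ _
theorem th_le_one (s : ℝ) : th s ≤ 1 := bp_le_one _ _

theorem th_eq_zero {s : ℝ} (h : s ≤ 1 / 4 ∨ 3 / 4 ≤ s) : th s = 0 := by
  refine bp_eq_zero ?_
  rcases h with h | h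
  · exact le_abs.2 (Or.inr (by linarith))
  · exact le_abs.2 (Or.inl (by linarith))

theorem th_ne {s : ℝ} (h : th s ≠ 0) : 1 / 4 < s ∧ s < 3 / 4 := by
  by_contra hc
  rw [not_and_or, not_lt, not_lt] at hc
  exact h (th_eq_zero hc)

theorem contDiff_th (n : ℕ) : ContDiff ℝ n th := by
  unfold th
  exact (contDiff_bp 1 n).comp ((contDiff_const.mul contDiff_id).sub contDiff_const)

theorem hasDerivAt_th (s : ℝ) : HasDerivAt th (deriv (bp 1) (8 * s - 4) * 8) s := by
  have h : HasDerivAt (fun s : ℝ => 8 * s - 4) 8 s := by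
    simpa using ((hasDerivAt_id s).const_mul 8).sub_const 4
  exact (hasDerivAt_bp 1 _).comp s h

theorem abs_deriv_th (s : ℝ) : |deriv th s| ≤ 8 * Kb := by
  rw [(hasDerivAt_th s).deriv, abs_mul]
  have := abs_deriv_bp 1 (8 * s - 4)
  norm_num
  linarith

theorem lip_th (x y : ℝ) : |th x - th y| ≤ 8 * Kb * |x - y| := by
  have := lip_bp 1 (8 * x - 4) (8 * y - 4)
  have e : 8 * x - 4 - (8 * y - 4) = 8 * (x - y) := by ring
  rw [e, abs_mul] at this
  unfold th
  norm_num at this ⊢
  linarith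

theorem integral_th : ∫ s, th s = (∫ x, bp 1 x) / 8 := by
  have h1 : ∫ s, th s = ∫ s, (fun y => bp 1 (y - 4)) (8 * s) := rfl
  rw [h1, Measure.integral_comp_mul_left (fun y => bp 1 (y - 4)) 8,
    integral_sub_right_eq_self (fun y => bp 1 y) 4]
  norm_num
  ring

theorem integral_th_ge : 1 / 4 ≤ ∫ s, th s := by
  have := integral_bp_ge (ρ := 1) (by norm_num)
  rw [integral_th]; linarith

theorem integral_th_le : ∫ s, th s ≤ 1 / 2 := by
  have := integral_bp_le (ρ := 1) (by norm_num)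
  rw [integral_th]; linarith

theorem hcs_th : HasCompactSupport th := by
  refine HasCompactSupport.intro (isCompact_Icc (a := 0) (b := 1)) fun x hx => th_eq_zero ?_
  rw [mem_Icc, not_and_or, not_le, not_le] at hx
  rcases hx with hx | hx
  · left; linarith
  · right; linarith

theorem th_disj (x : ℝ) {k l : ℕ} (hk : th (x - k) ≠ 0) (hl : th (x - l) ≠ 0) : k = l := by
  have h1 := th_ne hk
  have h2 := th_ne hl
  have a : (k : ℝ) < l + 1 := by linarith [h1.1, h2.2]
  have b : (l : ℝ) < k + 1 := by linarith [h1.2, h2.1]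
  have a' : k < l + 1 := by exact_mod_cast a
  have b' : l < k + 1 := by exact_mod_cast b
  omega

/-- at most one step is active -/
theorem abs_sum_th_le (s : Finset ℕ) (x : ℝ) (c : ℕ → ℝ) {B : ℝ} (hB : 0 ≤ B)
    (hc : ∀ k, |c k| ≤ B) : |∑ k ∈ s, th (x - k) * c k| ≤ B := by
  by_cases h : ∃ k ∈ s, th (x - k) ≠ 0
  · obtain ⟨k, hk, hk'⟩ := h
    rw [Finset.sum_eq_single_of_mem k hk]
    · rw [abs_mul, abs_of_nonneg (th_nonneg _)]
      nlinarith [th_nonneg (x - k), th_le_one (x - k), hc k, abs_nonneg (c k)]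
    · intro l _ hl
      by_cases h0 : th (x - l) = 0
      · rw [h0, zero_mul]
      · exact absurd (th_disj x h0 hk') hl
  · push Not at h
    rw [Finset.sum_eq_zero fun k hk => by rw [h k hk, zero_mul], abs_zero]
    exact hB

theorem sum_th_le (s : Finset ℕ) (x : ℝ) : ∑ k ∈ s, th (x - k) ≤ 1 := by
  have := abs_sum_th_le s x (fun _ => 1) zero_le_one (fun _ => by simp)
  simp only [mul_one] at this
  exact (le_abs_self _).trans this

end bp

section ks
variable {d : ℕ}

theorem kr_nonneg (x : E d) : 0 ≤ kr d x := (bump d).nonneg_normed x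

theorem contDiff_kr (n : ℕ) : ContDiff ℝ n (kr d) := (bump d).contDiff_normed

theorem kr_eq_zero {x : E d} (h : 1 ≤ ‖x‖) : kr d x = 0 := by
  by_contra hc
  have : x ∈ Function.support (kr d) := hc
  unfold kr at this
  rw [(bump d).support_normed_eq] at this
  simp [bump] at this
  linarith

theorem hcs_kr : HasCompactSupport (kr d) := (bump d).hasCompactSupport_normed

theorem exists_Kd (d : ℕ) : ∃ K : ℝ, 1 ≤ K ∧ (∀ x, kr d x ≤ K) ∧
    (∀ x, ‖fderiv ℝ (kr d) x‖ ≤ K) ∧ (∀ x : E d, ‖x‖ ≤ 1 / 2 → K⁻¹ ≤ kr d x) ∧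
    (volume (closedBall (0 : E d) 1)).toReal ≤ K ∧ K⁻¹ ≤ (volume (ball (0 : E d) 1)).toReal := by
  obtain ⟨C1, h1⟩ := (contDiff_kr (d := d) 0).continuous.bounded_above_of_compact_support hcs_kr
  obtain ⟨C2, h2⟩ := ((contDiff_kr (d := d) 1).continuous_fderiv
    (by simp)).bounded_above_of_compact_support (hcs_kr.fderiv ℝ)
  have hI := (bump d).integral_pos (μ := volume)
  set I := ∫ x, (bump d) x
  have hv : 0 < (volume (ball (0 : E d) 1)).toReal :=
    ENNReal.toReal_pos (measure_ball_pos _ _ one_pos).ne' measure_ball_lt_top.ne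
  set v := (volume (ball (0 : E d) 1)).toReal
  set w := (volume (closedBall (0 : E d) 1)).toReal
  have hw : 0 ≤ w := ENNReal.toReal_nonneg
  have c1 : 0 ≤ C1 := (norm_nonneg _).trans (h1 0)
  have c2 : 0 ≤ C2 := (norm_nonneg _).trans (h2 0)
  have hv' : 0 < v⁻¹ := inv_pos.2 hv
  refine ⟨1 + C1 + C2 + I + w + v⁻¹, by linarith, fun x => ?_, fun x => ?_, fun x hx => ?_,
    by linarith, ?_⟩
  · have := (le_abs_self _).trans (h1 x)
    linarith
  · linarith [h2 x]
  · have e : kr d x = 1 / I := by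
      unfold kr
      rw [ContDiffBump.normed_def, (bump d).one_of_mem_closedBall (by simpa [bump] using hx)]
    rw [e, one_div]
    exact inv_anti₀ hI (by linarith)
  · rw [inv_le_comm₀ (by linarith) hv]
    linarith

/-- the constant of the kernel in dimension d -/
noncomputable def Kd (d : ℕ) : ℝ := (exists_Kd d).choose

theorem one_le_Kd (d : ℕ) : 1 ≤ Kd d := (exists_Kd d).choose_spec.1

theorem ks_nonneg {r : ℝ} (hr : 0 < r) (x : E d) : 0 ≤ ks r x :=
  mul_nonneg (by positivity) (kr_nonneg _)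

theorem contDiff_ks (r : ℝ) (n : ℕ) : ContDiff ℝ n (ks (d := d) r) := by
  unfold ks
  exact contDiff_const.mul ((contDiff_kr n).comp (contDiff_const_smul _))

theorem continuous_ks (r : ℝ) : Continuous (ks (d := d) r) := (contDiff_ks r 0).continuous

theorem ks_eq_zero {r : ℝ} (hr : 0 < r) {x : E d} (h : r ≤ ‖x‖) : ks r x = 0 := by
  unfold ks
  rw [kr_eq_zero, mul_zero]
  rw [norm_smul, norm_inv, Real.norm_eq_abs, abs_of_pos hr, ← div_eq_inv_mul, one_le_div hr]
  exact h

theorem norm_lt_of_ks_ne {r : ℝ} (hr : 0 < r) {x : E d} (h : ks r x ≠ 0) : ‖x‖ < r := by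
  by_contra hc
  exact h (ks_eq_zero hr (not_lt.1 hc))

theorem hcs_ks {r : ℝ} (hr : 0 < r) : HasCompactSupport (ks (d := d) r) :=
  HasCompactSupport.intro (isCompact_closedBall 0 r) fun x hx =>
    ks_eq_zero hr (by simpa using (not_le.1 (by simpa using hx)).le)

theorem integrable_ks {r : ℝ} (hr : 0 < r) : Integrable (ks (d := d) r) :=
  (continuous_ks r).integrable_of_hasCompactSupport (hcs_ks hr)

theorem integral_ks {r : ℝ} (hr : 0 < r) : ∫ x : E d, ks r x = 1 := by
  unfold ks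
  rw [integral_const_mul, Measure.integral_comp_smul volume (kr d) r⁻¹]
  have : ∫ x, kr d x = 1 := (bump d).integral_normed
  rw [this]
  simp [abs_of_pos (pow_pos hr d), (pow_pos hr d).ne']

theorem integral_ks_sub {r : ℝ} (hr : 0 < r) (x : E d) : ∫ z, ks r (z - x) = 1 := by
  rw [integral_sub_right_eq_self (fun z => ks r z) x, integral_ks hr]

theorem integral_ks_sub' {r : ℝ} (hr : 0 < r) (x : E d) : ∫ z, ks r (x - z) = 1 := by
  rw [integral_sub_left_eq_self (fun z => ks r z) volume x, integral_ks hr]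

theorem ks_le {r : ℝ} (hr : 0 < r) (x : E d) : ks r x ≤ Kd d / r ^ d := by
  unfold ks
  rw [div_eq_inv_mul]
  exact mul_le_mul_of_nonneg_left ((exists_Kd d).choose_spec.2.1 _) (by positivity)

theorem le_ks {r : ℝ} (hr : 0 < r) {x : E d} (h : ‖x‖ ≤ r / 2) : (Kd d * r ^ d)⁻¹ ≤ ks r x := by
  unfold ks
  rw [mul_inv, mul_comm]
  refine mul_le_mul_of_nonneg_left ((exists_Kd d).choose_spec.2.2.2.1 _ ?_) (by positivity)
  rw [norm_smul, norm_inv, Real.norm_eq_abs, abs_of_pos hr, ← div_eq_inv_mul, div_le_iff₀ hr]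
  linarith

theorem norm_fderiv_ks {r : ℝ} (hr : 0 < r) (x : E d) :
    ‖fderiv ℝ (ks r) x‖ ≤ Kd d / r ^ (d + 1) := by
  have h1 : HasFDerivAt (fun x : E d => r⁻¹ • x) (r⁻¹ • ContinuousLinearMap.id ℝ (E d)) x :=
    (hasFDerivAt_id x).const_smul r⁻¹
  have h2 := ((((contDiff_kr (d := d) 1).differentiable (by simp)) (r⁻¹ • x)).hasFDerivAt.comp x
    h1).const_mul (r ^ d)⁻¹
  have h3 : fderiv ℝ (ks r) x = _ := h2.fderiv
  rw [h3, norm_smul, norm_inv, Real.norm_eq_abs, abs_of_pos (pow_pos hr d)]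
  have h4 : ‖(fderiv ℝ (kr d) (r⁻¹ • x)).comp (r⁻¹ • ContinuousLinearMap.id ℝ (E d))‖ ≤
      Kd d * r⁻¹ := by
    refine (ContinuousLinearMap.opNorm_comp_le _ _).trans (mul_le_mul
      ((exists_Kd d).choose_spec.2.2.1 _) ?_ (norm_nonneg _) (by linarith [one_le_Kd d]))
    rw [norm_smul, norm_inv, Real.norm_eq_abs, abs_of_pos hr]
    exact mul_le_of_le_one_right (by positivity) ContinuousLinearMap.norm_id_le
  calc _ ≤ (r ^ d)⁻¹ * (Kd d * r⁻¹) := mul_le_mul_of_nonneg_left h4 (by positivity)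
    _ = _ := by rw [pow_succ]; field_simp

theorem fderiv_ks_eq_zero {r : ℝ} (hr : 0 < r) {x : E d} (h : r < ‖x‖) :
    fderiv ℝ (ks r) x = 0 := by
  have : ks r =ᶠ[𝓝 x] fun _ => 0 := by
    filter_upwards [(isOpen_lt continuous_const continuous_norm).mem_nhds h] with y hy
    exact ks_eq_zero hr (le_of_lt hy)
  rw [this.fderiv_eq]; simp

theorem lip_ks {r : ℝ} (hr : 0 < r) (x y : E d) :
    |ks r x - ks r y| ≤ Kd d / r ^ (d + 1) * ‖x - y‖ :=
  convex_univ.norm_image_sub_le_of_norm_fderiv_le (𝕜 := ℝ) (f := ks r)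
    (fun z _ => ((contDiff_ks r 1).differentiable (by simp)) z) (fun z _ => norm_fderiv_ks hr z)
    (mem_univ y) (mem_univ x)

theorem vol_closedBall_le (x : E d) {r : ℝ} (hr : 0 ≤ r) :
    (volume (closedBall x r)).toReal ≤ Kd d * r ^ d := by
  rw [Measure.addHaar_closedBall' volume x hr, ENNReal.toReal_mul,
    ENNReal.toReal_ofReal (by positivity), finrank_euclideanSpace, Fintype.card_fin, mul_comm]
  exact mul_le_mul_of_nonneg_right (exists_Kd d).choose_spec.2.2.2.2.1 (by positivity)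

theorem le_vol_ball (x : E d) {r : ℝ} (hr : 0 < r) :
    (Kd d)⁻¹ * r ^ d ≤ (volume (ball x r)).toReal := by
  rw [Measure.addHaar_ball_of_pos volume x hr, ENNReal.toReal_mul,
    ENNReal.toReal_ofReal (by positivity), finrank_euclideanSpace, Fintype.card_fin, mul_comm]
  exact mul_le_mul_of_nonneg_left (exists_Kd d).choose_spec.2.2.2.2.2 (by positivity)

theorem norm_eb (i : Fin d) : ‖(eb i : E d)‖ = 1 := by simp [eb]

theorem inner_eb (x : E d) (i : Fin d) : ⟪eb i, x⟫ = x i := by
  simp [eb, EuclideanSpace.inner_single_left]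

theorem sum_eb (x : E d) : ∑ i, x i • (eb i : E d) = x := by
  ext j
  simp [eb, Pi.single_apply]

end ks

end Pool.Agent.MP_20bec2_an.LB
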