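import Pool.Agent.MP_20bec2_an.lb.Defs

set_option autoImplicit false
open MeasureTheory Set Metric
open scoped RealInnerProductSpace

namespace Pool.Agent.MP_20bec2_an.LB

/-- admissible centre and scale -/
def Adm {d : ℕ} (S : Sm d) (x : E d) (r : ℝ) : Prop :=
  0 < r ∧ S.Λ * S.η0 ≤ r / 4 ∧ ‖x - S.x0‖ + 2 * r ≤ S.R / 2

/-- the ball over which sm integrates -/
def Om {d : ℕ} (S : Sm d) : Set (E d) := ball S.x0 (3 * S.R / 8)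

/-- NODE A: pushforward, mass, bounds, measurability, multilinearity -/
def NodeAStmt (d : ℕ) : Prop := ∃ C : ℝ, 1 ≤ C ∧ ∀ S : Sm d,
  (∀ φ : E d → ℝ, Measurable φ → ∀ B : ℝ, (∀ y, |φ y| ≤ B) →
    ∫ y in S.f '' ball S.x0 S.R, φ y = ∫ x in ball S.x0 S.R, φ (S.f x) * S.ρ x) ∧
  (∀ A : Set (E d), MeasurableSet A →
    volume {y | ‖S.γ y - S.x0‖ < S.R / 2 ∧ S.γ y ∈ A} ≤
      ENNReal.ofReal (3 / 2) * volume (cthickening (S.Λ * S.η0) A)) ∧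
  (∀ x ∈ ball S.x0 S.R, ∀ y, ‖S.γ y - x‖ ≤ S.Λ * ‖y - S.f x‖ + S.Λ * S.η0) ∧
  (∀ X : E d → ℝ, Continuous X → ∀ r, Measurable fun x => nd S X x r) ∧
  ∀ x r, Adm S x r →
    HasCompactSupport (fun y => ks r (S.γ y - x)) ∧
    (volume {y | ‖S.γ y - x‖ ≤ r}).toReal ≤ C * r ^ d ∧ volume {y | ‖S.γ y - x‖ ≤ r} ≠ ⊤ ∧
    C⁻¹ ≤ nd S (fun _ => 1) x r ∧
    (∀ X : E d → ℝ, Continuous X → ∀ B : ℝ, (∀ y, |X y| ≤ B) → |nd S X x r| ≤ C * B) ∧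
    IsBil (An S x r) ∧ IsAlt (Cn S x r)

/-- NODE B: children of a Lipschitz weight; weak to strong; Fubini bound -/
def NodeBStmt (d : ℕ) : Prop := ∃ C : ℝ, 1 ≤ C ∧ ∀ S : Sm d,
  (∀ (w X : E d → ℝ) (L B : ℝ) (x : E d) (r r' : ℝ), Adm S x r → 0 < r' → r' ≤ r / 2 →
    S.Λ * S.η0 ≤ r' / 4 → 0 ≤ L → (∀ z z', |w z - w z'| ≤ L * ‖z - z'‖) →
    (∀ z, r ≤ ‖z - x‖ → w z = 0) → Continuous X → (∀ y, |X y| ≤ B) →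
    |(∫ x', w x' * nd S X x' r') - ∫ y, w (S.γ y) * X y| ≤ C * L * r' * r ^ d * B) ∧
  (∀ (X : E d → ℝ) (B η r' : ℝ) (y : E d), 0 < r' → S.Λ * S.η0 ≤ r' / 4 → S.Λ * r' ≤ η →
    S.Λ * η ≤ S.R / 64 → ‖S.γ y - S.x0‖ ≤ S.R / 4 → Continuous X → (∀ y, |X y| ≤ B) →
    |(∫ y', ks η (y - y') * X y') - sm S η (fun x' => nd S X x' r') y| ≤
      C * B * S.Λ * r' / η) ∧
  (∀ (η : ℝ) (y : E d), S.η0 ≤ η → S.Λ * η ≤ S.R / 64 → ‖S.γ y - S.x0‖ ≤ S.R / 4 →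
    sm S η S.ρ y = 1 ∧ 2 / 3 ≤ sm S η (fun _ => 1) y ∧ sm S η (fun _ => 1) y ≤ 2) ∧
  (∀ (φ : E d → ℝ) (B η : ℝ), 0 < η → Measurable φ → (∀ x ∈ Om S, |φ x| ≤ B) →
    Continuous (sm S η φ) ∧ ∀ y, IntegrableOn (fun x => ks η (y - S.f x) * φ x) (Om S)) ∧
  (∀ (φ : E d → ℝ) (B η : ℝ) (x : E d) (r : ℝ), Adm S x r → ‖x - S.x0‖ + 2 * r ≤ S.R / 4 →
    S.η0 ≤ η → S.Λ * η ≤ r / 4 → Measurable φ → (∀ x ∈ Om S, 0 ≤ φ x ∧ φ x ≤ B) →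
    ∫ y, ks r (S.γ y - x) * sm S η φ y ≤
      (∫ x', ks r (x' - x) * φ x') + C * B * S.Λ * η / r)

/-- the coarse map -/
def GmStmt (d : ℕ) : Prop := ∀ (S : Sm d) (η : ℝ), 0 < η →
  ContDiff ℝ 2 (Gm S η) ∧ (∀ y, ‖fderiv ℝ (Gm S η) y‖ ≤ S.Λ) ∧
  (∀ y, ‖Gm S η y - S.γ y‖ ≤ S.Λ * η) ∧
  ∀ y a v, ⟪a, fderiv ℝ (Gm S η) y v⟫ = ∫ y', ks η (y - y') * ⟪a, fderiv ℝ S.γ y' v⟫

/-- null Lagrangian identity in the whole space -/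
def NLStmt (d : ℕ) : Prop := ∀ (Ξ a b : E d → ℝ) (v v' : E d), ContDiff ℝ 1 Ξ →
  HasCompactSupport Ξ → ContDiff ℝ 1 a → ContDiff ℝ 2 b →
  ∫ y, Ξ y * (fderiv ℝ a y v * fderiv ℝ b y v' - fderiv ℝ a y v' * fderiv ℝ b y v) =
    - ∫ y, a y * (fderiv ℝ Ξ y v * fderiv ℝ b y v' - fderiv ℝ Ξ y v' * fderiv ℝ b y v)

/-- FAM: the children in a slab family inherit the components along the slab -/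
def FamStmt (D : ℕ) : Prop := ∃ (C : ℝ) (k : ℕ), 1 ≤ C ∧
  ∀ (S : Sm (D + 1)) (P : Par D) (Ω : ℝ), Link S P Ω → C * Ω ^ k * P.lam ≤ 1 →
  ∀ i < P.N, ∀ x ∈ nodes S P i,
    (∀ X : E (D + 1) → ℝ, Continuous X → (∀ y, |X y| ≤ 2 * S.Λ ^ 2) →
      |(∫ x', ks (P.r i) (x' - x) * nd S X x' (P.r (i + 1))) - nd S X x (P.r i)| ≤
        C * Ω ^ k * P.lam) ∧
    ∀ φ : P.Fam, Continuous (P.wt i φ x) ∧ (∀ x', 0 ≤ P.wt i φ x x') ∧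
      (∀ x', P.r i ≤ ‖x' - x‖ → P.wt i φ x x' = 0) ∧
      |(∫ x', P.wt i φ x x') - 1| ≤ C * Ω ^ k * P.lam ∧
      (∀ v, ‖v‖ ≤ 1 → |(∫ x', P.wt i φ x x' * An S x' (P.r (i + 1)) (P.nu φ) v) -
        An S x (P.r i) (P.nu φ) v| ≤ C * Ω ^ k * P.lam) ∧
      ∀ a v v', ‖a‖ ≤ 1 → ‖v‖ ≤ 1 → ‖v'‖ ≤ 1 →
        |(∫ x', P.wt i φ x x' * Cn S x' (P.r (i + 1)) a (P.nu φ) v v') -
          Cn S x (P.r i) a (P.nu φ) v v'| ≤ C * Ω ^ k * P.lam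

/-- SEL: a good base point in the pure part of a slab family -/
def SelStmt (D : ℕ) : Prop := ∃ (C : ℝ) (k : ℕ), 1 ≤ C ∧
  ∀ (S : Sm (D + 1)) (P : Par D) (Ω : ℝ), Link S P Ω → C * Ω ^ k * P.lam ≤ 1 →
  ∀ i < P.N, ∀ x ∈ nodes S P i, ∀ (φ : P.Fam) (α : Type) [MeasurableSpace α] (μ : Measure α)
    [IsFiniteMeasure μ] (Φ : α → E (D + 1)) (Err : E (D + 1) → ℝ) (B b : ℝ),
    Measurable Φ → (∀ a, ‖Φ a‖ ≤ Ω * P.wl i) → Measurable Err →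
    (∀ x' ∈ Om S, 0 ≤ Err x' ∧ Err x' ≤ B) → 0 < b → (∫ x', P.wt i φ x x' * Err x') ≤ b →
    ∃ yc : E (D + 1),
      (∫ a, sm S (P.η i) Err (yc + Φ a) ∂μ) ≤ C * b * (μ univ).toReal ∧
      ∀ z, ‖z‖ ≤ Ω * P.wl i → ‖S.γ (yc + z) - x‖ ≤ P.r i / 2 ∧
        |sm S (P.η i) (fun _ => 1) (yc + z) - 1 / P.pat i φ (Gm S (P.η i) (yc + z))| ≤
          C * Ω ^ k * P.lam

/-- a coordinate of the coarse map on a plane slice, in units of ϱ -/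
noncomputable def su {d : ℕ} (S : Sm d) (η : ℝ) (yc : E d) (ϱ : ℝ) (v v' a : E d)
    (p : ℝ × ℝ) : ℝ := ⟪a, Gm S η (yc + ϱ • (p.1 • v + p.2 • v'))⟫ / ϱ

/-- SLICE -/
def SliceStmt (d : ℕ) : Prop :=
  (∀ (S : Sm d) (η ϱ R W : ℝ) (yc v v' a a' : E d), 0 < η → 0 < ϱ → 0 ≤ R → 0 ≤ W →
    ‖v‖ ≤ 1 → ‖v'‖ ≤ 1 → ‖a‖ ≤ 1 → ‖a'‖ ≤ 1 →
    ContDiff ℝ 2 (su S η yc ϱ v v' a) ∧
    (∀ p, D1 (su S η yc ϱ v v' a) p =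
      ⟪a, fderiv ℝ (Gm S η) (yc + ϱ • (p.1 • v + p.2 • v')) v⟫) ∧
    (∀ p, D2 (su S η yc ϱ v v' a) p =
      ⟪a, fderiv ℝ (Gm S η) (yc + ϱ • (p.1 • v + p.2 • v')) v'⟫) ∧
    WeakJ (su S η yc ϱ v v' a) (su S η yc ϱ v v' a')
      (fun p => ∫ y', ks η (yc + ϱ • (p.1 • v + p.2 • v') - y') * Jm (fderiv ℝ S.γ y') a a' v v')
      (fun _ => 0) R W (100 * S.Λ ^ 2 * (η / ϱ) * (R + 1) * (W + 1)) ∧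
    Continuous fun p : ℝ × ℝ =>
      ∫ y', ks η (yc + ϱ • (p.1 • v + p.2 • v') - y') * Jm (fderiv ℝ S.γ y') a a' v v') ∧
  ∀ (u V G G' EC : ℝ × ℝ → ℝ) (R W τ : ℝ), 0 ≤ W → ContDiff ℝ 2 u → ContDiff ℝ 2 V →
    Continuous G → Continuous G' → Continuous EC → WeakJ u V G (fun _ => 0) R W τ →
    (∀ p ∈ rect R W, |G p - G' p| ≤ EC p) → WeakJ u V G' EC R W τ

/-- LINE: difference of a line functional (Green), the hull lemma, level selection -/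
def LineStmt : Prop :=
  (∀ (u V F : ℝ × ℝ → ℝ) (θ : ℝ → ℝ) (s0 s1 W : ℝ), ContDiff ℝ 2 u → ContDiff ℝ 2 V →
    ContDiff ℝ 1 F → ContDiff ℝ 1 θ →
    (∀ t ∈ uIcc s0 s1, θ (V (t, -W)) = 0 ∧ θ (V (t, W)) = 0) →
    (∫ w in (-W)..W, θ (V (s1, w)) * F (s1, u (s1, w)) * D2 V (s1, w)) -
      (∫ w in (-W)..W, θ (V (s0, w)) * F (s0, u (s0, w)) * D2 V (s0, w)) =
      II s0 s1 W fun p => θ (V p) * (D1 F (p.1, u p) * D2 V p + D2 F (p.1, u p) * Jac u V p)) ∧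
  (∀ (u V e : ℝ → ℝ) (W v0 a m : ℝ), ContDiff ℝ 1 u → ContDiff ℝ 1 V → Continuous e →
    0 < a → 0 < m → (∀ w ∈ Icc (-W) W, |deriv u w| ≤ e w ∧ m - e w ≤ deriv V w) →
    (∫ w in (-W)..W, bp 2 ((V w - v0) / a) * e w ^ 2) ≤ m * a / 10 →
    ∀ w1 ∈ Icc (-W) W, ∀ w2 ∈ Icc (-W) W, |V w1 - v0| ≤ a → |V w2 - v0| ≤ a →
      |u w1 - u w2| ≤ ∫ w in (-W)..W, bp 2 ((V w - v0) / a) * e w) ∧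
  ∀ (α : Type) [MeasurableSpace α] (μ : Measure α) (V G : α → ℝ) (lo hi per ρ : ℝ),
    Measurable V → Integrable G μ → (∀ a, 0 ≤ G a) → 0 < per → 0 ≤ ρ →
    (4 * ρ + 10) * per ≤ hi - lo →
    ∃ l : ℤ, lo ≤ (l - ρ - 1) * per ∧ (l + ρ + 1) * per ≤ hi ∧
      (∫ a, bp ρ (V a / per - l) * G a ∂μ) ≤ (4 * ρ + 6) * per / (hi - lo) * ∫ a, G a ∂μ

/-- LAM: the laminate lemma -/
def LamStmt : Prop := ∃ c : ℝ, 0 < c ∧ ∀ (u V EA EC : ℝ × ℝ → ℝ) (Λ A β1 β2 c0 e eC ε R τ : ℝ),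
  ContDiff ℝ 2 u → ContDiff ℝ 2 V → Continuous EA → Continuous EC → (∀ p, 0 ≤ EC p) →
  1 ≤ Λ → 0 ≤ A → 0 < ε → ε ≤ 1 / 2 → 1 ≤ R → 0 ≤ τ → 0 < e → |β1| ≤ A → |β2| ≤ A →
  (∀ p ∈ rect R R, |D1 u p| ≤ A ∧ |D2 u p| ≤ A ∧ |D1 V p| ≤ Λ ∧ |D2 V p| ≤ Λ ∧
    |D1 V p - β1 / (1 + ε * Real.cos (u p))| ≤ EA p ∧
    |D2 V p - β2 / (1 + ε * Real.cos (u p))| ≤ EA p) →
  WeakJ u V (fun p => c0 / (1 + ε * Real.cos (u p))) EC R R τ →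
  II (-R) R R (fun p => EA p ^ 2) ≤ e ^ 2 * R ^ 2 → II (-R) R R EC ≤ eC * R ^ 2 →
  c * ε * |c0| ≤ eC + A * e + (A + Λ + A * Λ) / R + τ * (A + 1)

/-- CHIRP: the chirp lemma -/
def ChirpStmt : Prop := ∃ c : ℝ, 0 < c ∧
  ∀ (u V EA EC : ℝ × ℝ → ℝ) (Λ m h e eC ε a R W τ : ℝ) (T : ℕ),
  ContDiff ℝ 2 u → ContDiff ℝ 2 V → Continuous EA → Continuous EC → (∀ p, 0 ≤ EC p) →
  1 ≤ Λ → 0 < m → 0 < h → 0 < e → 0 < eC → 0 < ε → ε ≤ 1 / 2 → 1 ≤ a → 1 ≤ T → 0 < R →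
  0 < W → 0 ≤ τ →
  (∀ p ∈ rect R W, |D1 u p| ≤ Λ ∧ |D2 u p| ≤ Λ ∧ |D1 V p| ≤ Λ ∧ |D2 V p| ≤ Λ ∧
    |D2 V p - m / chirp ε T a (u p) (V p)| ≤ EA p ∧ |D1 V p| ≤ EA p ∧ |D2 u p| ≤ EA p) →
  WeakJ u V (fun p => m * h / chirp ε T a (u p) (V p)) EC R W τ →
  II (-R) R W (fun p => EA p ^ 2) ≤ e ^ 2 * (R * W) → II (-R) R W EC ≤ eC * (R * W) →
  e * a ≤ c * m → e * T ≤ c * ε * m → T * (1 + Real.log T) ≤ c * h * R →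
  (eC + h * e) * R ≤ c * m → Λ * R + T * a ≤ c * m * W → τ * (Λ + h + 1) ≤ c →
  c * ε * Real.sqrt T * h * a ≤ e

/-- VOL: the volume lemma -/
def VolStmt (D : ℕ) : Prop := ∃ c : ℝ, 0 < c ∧
  ∀ (u : Fin D → (Fin D → ℝ) × ℝ → ℝ) (V EA EC : (Fin D → ℝ) × ℝ → ℝ)
    (H : Fin D → Fin D → ℝ) (Λ m h0 e eC R W τ : ℝ),
  (∀ i, ContDiff ℝ 2 (u i)) → ContDiff ℝ 2 V → Continuous EA → Continuous EC →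
  (∀ p, 0 ≤ EC p) → 1 ≤ Λ → 0 < m → 0 < h0 → 0 < e → 0 < eC → 0 < R → 0 < W → 0 ≤ τ →
  (∀ p ∈ box D R W, (∀ l, |fderiv ℝ V p (Pi.single l 1, 0)| ≤ Λ) ∧ |fderiv ℝ V p (0, 1)| ≤ Λ ∧
    |fderiv ℝ V p (0, 1) - m| ≤ EA p ∧ ∀ i, |fderiv ℝ (u i) p (0, 1)| ≤ EA p) →
  (∀ i l, |H i l| ≤ h0) →
  (∀ t ∈ Set.pi univ fun _ : Fin D => Icc 0 (2 * R), ∀ i l,
    WeakJ (slc (u i) t l) (slc V t l) (fun _ => m * H i l) (slc EC t l) R W τ) →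
  (∫ p in box D R W, EA p ^ 2) ≤ e ^ 2 * (R ^ D * W) →
  (∫ p in box D R W, EC p) ≤ eC * (R ^ D * W) →
  (∀ (U : Fin D → ℝ) (K v0 a : ℝ), 0 ≤ K → 0 ≤ a →
    volume {p | p ∈ box D R W ∧ (∀ i, |u i p - U i| ≤ K) ∧ V p ∈ Icc v0 (v0 + a)} ≤
      ENNReal.ofReal (2 * (2 * K + 1) ^ D * (a + 1))) →
  e ≤ c * m → eC ≤ m * h0 → Λ * R + R * h0 ≤ c * m * W → 1 ≤ R * h0 → τ * Λ ≤ 1 →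
  c ≤ m * h0 ^ D

/-- ALG: finite dimensional inequalities -/
def AlgStmt (D : ℕ) : Prop :=
  (∀ A : E (D + 1) → E (D + 1) → ℝ, IsBil A →
    (∀ a v, A a v ^ 2 ≤ ‖v‖ ^ 2 * row A a) ∧ (∀ a, row A a ≤ ‖a‖ ^ 2 * fr A) ∧
    (∀ ν n s, ‖ν‖ = 1 → ‖n‖ = 1 →
      fr (fun a v => A a v - s * ⟪a, ν⟫ * ⟪n, v⟫) = fr A - 2 * s * A ν n + s ^ 2) ∧
    ∃ ν n m, ‖ν‖ = 1 ∧ ‖n‖ = 1 ∧ 0 ≤ m ∧ (∀ v, A ν v = m * ⟪n, v⟫) ∧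
      (∀ a, A a n = m * ⟪a, ν⟫) ∧ fr A ≤ (D + 1) ^ 2 * m ^ 2) ∧
  (∀ C : E (D + 1) → E (D + 1) → E (D + 1) → E (D + 1) → ℝ, IsAlt C →
    (∀ a ν v v', C a ν v v' ^ 2 ≤ ‖a‖ ^ 2 * ‖v‖ ^ 2 * ‖v'‖ ^ 2 * c3 C ν) ∧
    (∀ a ν v n, C a ν v n ^ 2 ≤ ‖a‖ ^ 2 * ‖v‖ ^ 2 * c2 C ν n) ∧
    (∀ ν n, c2 C ν n ≤ ‖n‖ ^ 2 * c3 C ν) ∧
    (∀ (B : OrthonormalBasis (Fin (D + 1)) ℝ (E (D + 1))) (x : ℝ),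
      (∀ j l l', |C (B (Fin.succ j)) (B 0) (eb l) (eb l')| ≤ x) →
      c3 C (B 0) ≤ (D + 1) ^ 5 * x ^ 2) ∧
    ∀ (B B' : OrthonormalBasis (Fin (D + 1)) ℝ (E (D + 1))) (x : ℝ),
      (∀ j l, |C (B (Fin.succ j)) (B 0) (B' (Fin.succ l)) (B' 0)| ≤ x) →
      c2 C (B 0) (B' 0) ≤ (D + 1) ^ 6 * x ^ 2) ∧
  (∀ (ι : Type) [Fintype ι] (X0 : ι → ℝ) (Cb : ℝ) (M k : ℕ), 0 < Cb → k ≤ M →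
    ∑ i, X0 i ^ 2 ≤ 4 * (Cb / 2 ^ k) ^ 2 → ∃ g : ι → ℝ, (∀ i, |g i| ≤ M + 1) ∧ ∀ X : ι → ℝ,
      psi Cb M (∑ i, X0 i ^ 2) + ∑ i, g i * (X i - X0 i) +
        (∑ i, (X i - X0 i) ^ 2) / (10 * (3 * (Cb / 2 ^ k) + Real.sqrt (∑ i, (X i - X0 i) ^ 2)))
        ≤ psi Cb M (∑ i, X i ^ 2)) ∧
  ∀ (Cb : ℝ) (M : ℕ) (s s' : ℝ), 0 ≤ s → 0 ≤ s' →
    psi Cb M s' ≤ psi Cb M s + (M + 1) * |Real.sqrt s' - Real.sqrt s|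

/-- ROT: near a maximum of the second potential the frame is close to the top singular pair -/
def RotStmt (D : ℕ) : Prop := ∃ C : ℝ, 1 ≤ C ∧
  ∀ (A : E (D + 1) → E (D + 1) → ℝ) (Cc : E (D + 1) → E (D + 1) → E (D + 1) → E (D + 1) → ℝ)
    (νA nA ν n : E (D + 1)) (m α res Ab Cb κ : ℝ) (M : ℕ), IsBil A → IsAlt Cc →
    ‖νA‖ = 1 → ‖nA‖ = 1 → ‖ν‖ = 1 → ‖n‖ = 1 → 0 < m → 0 ≤ α → α ≤ m / 4 → 0 ≤ res →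
    0 < Ab → 0 < Cb → 0 ≤ κ → (∀ v, A νA v = m * ⟪nA, v⟫) → (∀ a, A a nA = m * ⟪a, νA⟫) →
    (∀ a v, ⟪a, νA⟫ = 0 → ‖a‖ ≤ 1 → ‖v‖ ≤ 1 → |A a v| ≤ α) →
    (∀ a a' v v', ⟪a, νA⟫ = 0 → ⟪a', νA⟫ = 0 → ‖a‖ ≤ 1 → ‖a'‖ ≤ 1 → ‖v‖ ≤ 1 → ‖v'‖ ≤ 1 →
      |Cc a a' v v'| ≤ res) →
    (∀ a v v', ⟪nA, v⟫ = 0 → ⟪nA, v'⟫ = 0 → ‖a‖ ≤ 1 → ‖v‖ ≤ 1 → ‖v'‖ ≤ 1 →
      |Cc a νA v v'| ≤ res) →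
    A νA nA ^ 2 / Ab ^ 2 + psi Cb M (c2 Cc νA nA) / (24 * (M + 1) * Cb) ≤
      A ν n ^ 2 / Ab ^ 2 + psi Cb M (c2 Cc ν n) / (24 * (M + 1) * Cb) + κ →
    fr A - A ν n ^ 2 ≤ C * (α ^ 2 + κ * Ab ^ 2 + (res * Ab ^ 2 / (Cb * m)) ^ 2)

/-- CONS: consistency of the averaged minors when the averaged gradient is rigid -/
def ConsStmt (D : ℕ) : Prop := ∃ (C : ℝ) (k : ℕ), 1 ≤ C ∧
  ∀ (S : Sm (D + 1)) (P : Par D) (Ω : ℝ), Link S P Ω → C * Ω ^ k * P.lam ≤ 1 →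
  ∀ i < P.N, ∀ x ∈ nodes S P i, ∀ (νA nA : E (D + 1)) (m e Cb : ℝ), ‖νA‖ = 1 → ‖nA‖ = 1 →
    0 < m → C * Ω ^ k * P.lam ≤ e ^ 2 → 0 ≤ e → 0 ≤ Cb →
    (∀ v, An S x (P.r i) νA v = m * ⟪nA, v⟫) → (∀ a, An S x (P.r i) a nA = m * ⟪a, νA⟫) →
    (∫ x', ks (P.r i) (x' - x) *
      fr (fun a v => An S x' (P.r (i + 1)) a v - An S x (P.r i) a v)) ≤ e ^ 2 →
    c2 (Cn S x (P.r i)) νA nA ≤ 4 * Cb ^ 2 →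
    (∀ a v, ⟪a, νA⟫ = 0 → ‖a‖ ≤ 1 → ‖v‖ ≤ 1 → C * e ≤ m →
      |An S x (P.r i) a v| ≤ C * (Cb + e * m + e ^ 2) / m) ∧
    ∀ α, 0 ≤ α → (∀ a v, ⟪a, νA⟫ = 0 → ‖a‖ ≤ 1 → ‖v‖ ≤ 1 → |An S x (P.r i) a v| ≤ α) →
      (∀ a a' v v', ⟪a, νA⟫ = 0 → ⟪a', νA⟫ = 0 → ‖a‖ ≤ 1 → ‖a'‖ ≤ 1 → ‖v‖ ≤ 1 → ‖v'‖ ≤ 1 →
        |Cn S x (P.r i) a a' v v'| ≤ C * (α ^ 2 + e ^ 2)) ∧
      ∀ a v v', ⟪nA, v⟫ = 0 → ⟪nA, v'⟫ = 0 → ‖a‖ ≤ 1 → ‖v‖ ≤ 1 → ‖v'‖ ≤ 1 →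
        |Cn S x (P.r i) a νA v v'| ≤ C * (α ^ 2 + e ^ 2)

/-- PATH 1: no special node for the first potential -/
def P1Stmt (D : ℕ) : Prop := ∃ (C : ℝ) (k : ℕ), 1 ≤ C ∧
  ∀ (S : Sm (D + 1)) (P : Par D) (Ω : ℝ), Link S P Ω → C * Ω ^ k * P.lam ≤ 1 →
  ∀ i < P.N, ∀ x ∈ nodes S P i, ∀ (Ab Cb κ : ℝ) (ν : E (D + 1)), 1 ≤ D → Ω⁻¹ ≤ Ab → Ω⁻¹ ≤ Cb →
    Ab ≤ Ω → Ω⁻¹ ≤ κ → Ω⁻¹ ≤ P.ε → C * Real.sqrt κ ≤ P.ε →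
    C * Real.sqrt κ * Ab ^ 2 ≤ P.ε * Cb → ‖ν‖ = 1 → 3 ≤ F1 S Ab Cb x (P.r i) ν →
    fr (An S x (P.r i)) ≤ Ab ^ 2 →
    (∀ x' ∈ ball x (P.r i), fr (An S x' (P.r (i + 1))) ≤ Ab ^ 2 ∧ ∀ ν', ‖ν'‖ = 1 →
      F1 S Ab Cb x' (P.r (i + 1)) ν' ≤ (1 + κ) * F1 S Ab Cb x (P.r i) ν) → False

/-- RIG: rigidity in the slab families at a special node of the second potential -/
def RigStmt (D : ℕ) : Prop := ∃ (C : ℝ) (k : ℕ), 1 ≤ C ∧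
  ∀ (S : Sm (D + 1)) (P : Par D) (Ω : ℝ), Link S P Ω → C * Ω ^ k * P.lam ≤ 1 →
  ∀ i < P.N, ∀ x ∈ nodes S P i, ∀ (Ab s κ : ℝ) (M : ℕ) (ν n : E (D + 1)), Ω⁻¹ ≤ Ab → Ab ≤ Ω →
    Ω⁻¹ ≤ κ → (M : ℝ) ≤ Ω → Real.sqrt κ ≤ s → C * s ≤ 1 → ‖ν‖ = 1 → ‖n‖ = 1 →
    1 / 5 ≤ F2 S Ab (s * Ab ^ 2) M x (P.r i) ν n → fr (An S x (P.r i)) ≤ Ab ^ 2 →
    (∀ ν', ‖ν'‖ = 1 → c3 (Cn S x (P.r i)) ν' ≤ 4 * (s * Ab ^ 2) ^ 2) →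
    (∀ ν' n', ‖ν'‖ = 1 → ‖n'‖ = 1 →
      F2 S Ab (s * Ab ^ 2) M x (P.r i) ν' n' ≤ F2 S Ab (s * Ab ^ 2) M x (P.r i) ν n + κ) →
    (∀ x' ∈ ball x (P.r i), ∀ ν' n', ‖ν'‖ = 1 → ‖n'‖ = 1 →
      F2 S Ab (s * Ab ^ 2) M x' (P.r (i + 1)) ν' n' ≤
        F2 S Ab (s * Ab ^ 2) M x (P.r i) ν n + κ) →
    ∃ (k0 : Fin P.K) (n0 : E (D + 1)) (m : ℝ), ‖n0‖ = 1 ∧ Ab ≤ C * m ∧ m ≤ Ab ∧
      ∀ φ : P.Fam, φ.1 = k0 →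
        (∫ x', P.wt i φ x x' * fr (fun a v => An S x' (P.r (i + 1)) a v -
          m * ⟪a, P.B k0 0⟫ * ⟪n0, v⟫)) ≤ C * (s * Ab) ^ 2 ∧
        ∀ y, Real.sqrt (c2 (Cn S x (P.r i)) (P.B k0 0) n0) ≤ y →
          (∫ x', P.wt i φ x x' * Real.sqrt (c2 (fun a a' v v' =>
            Cn S x' (P.r (i + 1)) a a' v v' - Cn S x (P.r i) a a' v v') (P.B k0 0) n0)) ≤
          C * (Real.sqrt ((M + 1) * s ^ 3 * Ab ^ 2 * (y + s * Ab ^ 2 / 2 ^ M)) +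
            (M + 1) * s ^ 3 * Ab ^ 2)

/-- rigidity data in all families with normal B k0 0 -/
def RigData {D : ℕ} (S : Sm (D + 1)) (P : Par D) (i : ℕ) (x : E (D + 1)) (k0 : Fin P.K)
    (n0 : E (D + 1)) (m e eC : ℝ) : Prop :=
  ∀ φ : P.Fam, φ.1 = k0 →
    (∫ x', P.wt i φ x x' * fr (fun a v => An S x' (P.r (i + 1)) a v -
      m * ⟪a, P.B k0 0⟫ * ⟪n0, v⟫)) ≤ e ^ 2 ∧
    (∫ x', P.wt i φ x x' * Real.sqrt (c2 (fun a a' v v' =>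
      Cn S x' (P.r (i + 1)) a a' v v' - Cn S x (P.r i) a a' v v') (P.B k0 0) n0)) ≤ eC

/-- GVOL: the volume lemma at a node -/
def GVolStmt (D : ℕ) : Prop := ∃ (C : ℝ) (k : ℕ), 1 ≤ C ∧
  ∀ (S : Sm (D + 1)) (P : Par D) (Ω : ℝ), Link S P Ω → C * Ω ^ k * P.lam ≤ 1 →
  ∀ i < P.N, ∀ x ∈ nodes S P i, ∀ (k0 : Fin P.K)
    (B' : OrthonormalBasis (Fin (D + 1)) ℝ (E (D + 1))) (m e eC h0 : ℝ), 1 ≤ D →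
    Ω⁻¹ ≤ m → m ≤ Ω → Ω⁻¹ ≤ e → Ω⁻¹ ≤ eC → Ω⁻¹ ≤ h0 → h0 ≤ Ω →
    RigData S P i x k0 (B' 0) m e eC →
    (∀ j l, |Cn S x (P.r i) (P.B k0 (Fin.succ j)) (P.B k0 0) (B' (Fin.succ l)) (B' 0)| ≤ m * h0) →
    C * e ≤ m → C * eC ≤ m * h0 → 1 ≤ C * m * h0 ^ D

/-- GCHIRP: the chirp lemma at a node -/
def GChirpStmt (D : ℕ) : Prop := ∃ (C : ℝ) (k : ℕ), 1 ≤ C ∧
  ∀ (S : Sm (D + 1)) (P : Par D) (Ω : ℝ), Link S P Ω → C * Ω ^ k * P.lam ≤ 1 →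
  ∀ i < P.N, ∀ x ∈ nodes S P i, ∀ (k0 : Fin P.K) (j : Fin D) (n0 v : E (D + 1)) (m e eC h : ℝ),
    ‖n0‖ = 1 → ‖v‖ = 1 → ⟪n0, v⟫ = 0 →
    Ω⁻¹ ≤ m → m ≤ Ω → Ω⁻¹ ≤ e → Ω⁻¹ ≤ eC → Ω⁻¹ ≤ h → h ≤ Ω →
    RigData S P i x k0 n0 m e eC →
    Cn S x (P.r i) (P.B k0 (Fin.succ j)) (P.B k0 0) v n0 = m * h →
    C * e * P.a ≤ m → C * e * P.T ≤ P.ε * m →
    C * (eC + h * e) * (P.T * (1 + Real.log P.T)) ≤ m * h →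
    P.ε * Real.sqrt P.T * h * P.a ≤ C * e

/-- PATH 2: no special node for the second potential -/
def P2Stmt (D : ℕ) : Prop := ∃ (C : ℝ) (k : ℕ), 1 ≤ C ∧
  ∀ (S : Sm (D + 1)) (P : Par D) (Ω : ℝ), Link S P Ω → C * Ω ^ k * P.lam ≤ 1 →
  ∀ i < P.N, ∀ x ∈ nodes S P i, ∀ (Ab s κ h0 : ℝ) (M : ℕ) (ν n : E (D + 1)), 1 ≤ D →
    Ω⁻¹ ≤ Ab → Ab ≤ Ω → Ω⁻¹ ≤ κ → Ω⁻¹ ≤ h0 → h0 ≤ 1 → (M : ℝ) ≤ Ω → 1 / 2 ^ M ≤ P.lam →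
    Real.sqrt κ ≤ s → C * s * P.a ≤ 1 → C * s * (P.T * (1 + Real.log P.T)) ≤ P.ε →
    C * (P.T * (1 + Real.log P.T)) ^ 2 * (M + 1) * s ^ 3 * Ab ≤ h0 →
    C * Ab * h0 ^ D ≤ 1 → C * s * Ab ≤ P.ε * Real.sqrt P.T * h0 * P.a →
    ‖ν‖ = 1 → ‖n‖ = 1 →
    1 / 5 ≤ F2 S Ab (s * Ab ^ 2) M x (P.r i) ν n → fr (An S x (P.r i)) ≤ Ab ^ 2 →
    (∀ ν', ‖ν'‖ = 1 → c3 (Cn S x (P.r i)) ν' ≤ 4 * (s * Ab ^ 2) ^ 2) →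
    (∀ ν' n', ‖ν'‖ = 1 → ‖n'‖ = 1 →
      F2 S Ab (s * Ab ^ 2) M x (P.r i) ν' n' ≤ F2 S Ab (s * Ab ^ 2) M x (P.r i) ν n + κ) →
    (∀ x' ∈ ball x (P.r i), ∀ ν' n', ‖ν'‖ = 1 → ‖n'‖ = 1 →
      F2 S Ab (s * Ab ^ 2) M x' (P.r (i + 1)) ν' n' ≤
        F2 S Ab (s * Ab ^ 2) M x (P.r i) ν n + κ) → False

/-- LOW: some node of level one has a gradient average that is not tiny -/
def LowStmt (D : ℕ) : Prop := ∃ (C : ℝ) (k : ℕ), 1 ≤ C ∧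
  ∀ (S : Sm (D + 1)) (P : Par D) (Ω : ℝ), Link S P Ω → C * Ω ^ k * P.lam ≤ 1 → 1 ≤ P.N →
  ∃ x ∈ nodes S P 1, 1 ≤ C * S.Λ ^ 2 * fr (An S x (P.r 1))

/-- the parameters of the piece number M -/
def IsPiece {D : ℕ} (n M : ℕ) (P : Par D) : Prop :=
  P.Ok ∧ P.lam = 1 / 2 ^ M ∧ P.ε = 1 / (M : ℝ) ^ 2 ∧
    P.a = (M : ℝ) ^ (5 * (D + 1) * n - 5) ∧ P.T = M ^ (2 * ((D + 1) * n - 7)) ∧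
    P.N = 1 + 2 * M ^ (10 * (D + 1) * n + 2)

/-- CORE: no model with Λ at most M^(11 D n - 20) carries the density of piece M -/
def CoreStmt (D : ℕ) : Prop := ∀ n : ℕ, 1 ≤ D → 20 ≤ n → ∃ M0 : ℕ, ∀ M ≥ M0,
  ∀ (S : Sm (D + 1)) (P : Par D), IsPiece n M P → P.r0 = S.R / 64 →
    (∀ x ∈ ball S.x0 (S.R / 2), S.ρ x = P.rho x) → S.Λ * S.η0 ≤ P.r P.N * P.lam →
    S.Λ ≤ (M : ℝ) ^ (11 * D * n - 20) → False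

/-- NET -/
def NetStmt (D : ℕ) : Prop := ∀ lam : ℝ, 0 < lam → lam ≤ 1 / 100 →
  ∃ (K : ℕ) (B : Fin K → OrthonormalBasis (Fin (D + 1)) ℝ (E (D + 1))),
    (K : ℝ) * lam ^ (D + 1) ≤ (3 * (D + 1)) ^ (D + 1) ∧
    (∀ ν : E (D + 1), ‖ν‖ = 1 → ∃ k, ‖ν - B k 0‖ ≤ lam ∨ ‖ν + B k 0‖ ≤ lam) ∧
    ∀ k k', k ≠ k' → lam ^ 2 / 2 ≤ 1 - ⟪B k 0, B k' 0⟫ ^ 2

/-- invariance of domain -/
def DomStmt (d : ℕ) : Prop := ∀ (f : E d → E d) (x : E d) (r : ℝ), 0 < r →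
  ContinuousOn f (closedBall x r) → InjOn f (closedBall x r) →
  f '' closedBall x r ∈ nhds (f x)

/-- SETUP: a bi-ω solution gives local models near the centre of the cube -/
def SetupStmt (d : ℕ) : Prop := ∀ (α : ℝ) (ρ : E d → ℝ), 0 ≤ α → α ≤ 2 → Continuous ρ →
  (∀ x, 1 / 2 ≤ ρ x) → (∀ x, ρ x ≤ 3 / 2) →
  Realisable d (fun t => t * Real.log (1 / t) ^ α) ρ →
  ∃ C s : ℝ, 1 ≤ C ∧ 0 < s ∧ ∀ (x0 : E d) (R η0 : ℝ), 0 < R → 0 < η0 → η0 ≤ s →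
    ‖x0 - (WithLp.toLp 2 fun _ => 1 / 2 : E d)‖ + R ≤ s →
    C * Real.log (1 / η0) ^ α * η0 ≤ R / 4 →
    ∃ S : Sm d, S.ρ = ρ ∧ S.x0 = x0 ∧ S.R = R ∧ S.η0 = η0 ∧ S.Λ = C * Real.log (1 / η0) ^ α

def MainStmt (D : ℕ) : Prop := ∀ α : ℝ, 1 ≤ D → α < 11 * D / (10 * (D + 1)) →
  ∃ ρ : E (D + 1) → ℝ, Continuous ρ ∧ (∀ x, 0 < ρ x) ∧
    ¬ Realisable (D + 1) (fun t => t * Real.log (1 / t) ^ α) ρ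

end Pool.Agent.MP_20bec2_an.LB
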